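import Pool.Agent.N13.EU.Tay

/-!
# The `γ`-vector of a flag complex, from the Taylor expansion of the `f`-polynomial at `-1/2`
-/

set_option autoImplicit false

namespace Pool.Agent.V5helper88.GA

open Polynomial Pool.Agent.N13.EU

/-- `c` is the `γ`-vector of the flag complex of `G`, regarded as a complex of dimension `n - 1`: the
`f`-polynomial is `∑ i, c i X ^ i (1 + X) ^ i (1 + 2 X) ^ (n - 2 i)`, the sum over `i ≤ n / 2` (and `c i = 0`
for `i > n / 2`). -/
def IsGam {V : Type} [Fintype V] (n : ℕ) (G : SimpleGraph V) (c : ℕ → ℚ) : Prop :=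
  (∀ i, n < 2 * i → c i = 0) ∧ fpoly G = ∑ i ∈ Finset.range (n / 2 + 1),
    C (c i) * (X ^ i * (1 + X) ^ i * (1 + 2 * X) ^ (n - 2 * i))

/-- the sums of the Euler characteristics of the links of the simplices with `k` vertices -/
noncomputable def aa {V : Type} [Fintype V] (G : SimpleGraph V) (k : ℕ) : ℚ :=
  by
    classical
    exact ∑ T : Finset V, (if G.IsClique (T : Set V) ∧ T.card = k then chiL G T else 0)

lemma taylor_two : taylor (-1 / 2 : ℚ) (1 + 2 * X : ℚ[X]) = C 2 * X := by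
  have h : (2 : ℚ[X]) = C 2 := rfl
  rw [h, map_add, taylor_mul, taylor_C, taylor_X]
  have h1 : taylor (-1 / 2 : ℚ) (1 : ℚ[X]) = 1 := by rw [taylor_one]; rfl
  rw [h1, mul_add, ← C_mul]
  norm_num

lemma taylor_sq : taylor (-1 / 2 : ℚ) (X * (1 + X) : ℚ[X]) = X ^ 2 + C (-1 / 4) := by
  have h1 : taylor (-1 / 2 : ℚ) (1 : ℚ[X]) = 1 := by rw [taylor_one]; rfl
  rw [taylor_mul, map_add, taylor_X, h1]
  have e : (1 : ℚ[X]) + (X + C (-1 / 2)) = X + C (1 / 2) := by
    rw [← C_1, add_left_comm, ← C_add]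
    norm_num
  rw [e]
  have e2 : (X + C (-1 / 2 : ℚ)) * (X + C (1 / 2)) = X ^ 2 + X * (C (-1 / 2) + C (1 / 2)) + C (-1 / 2) * C (1 / 2) := by
    ring
  rw [e2, ← C_add, ← C_mul]
  norm_num

lemma taylor_bas (n i j : ℕ) (hi : 2 * i ≤ n) (hj : 2 * j ≤ n) :
    (taylor (-1 / 2 : ℚ) (X ^ i * (1 + X) ^ i * (1 + 2 * X) ^ (n - 2 * i) : ℚ[X])).coeff (n - 2 * j) =
      (i.choose j : ℚ) * (-1 / 4) ^ j * 2 ^ (n - 2 * i) := by
  rw [← mul_pow, taylor_mul, taylor_pow, taylor_pow, taylor_two, taylor_sq, mul_pow, add_pow,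
    Finset.sum_mul, finset_sum_coeff]
  have key : ∀ m ∈ Finset.range (i + 1), ((X ^ 2 : ℚ[X]) ^ m * C (-1 / 4) ^ (i - m) * (i.choose m : ℚ[X]) *
      (C 2 ^ (n - 2 * i) * X ^ (n - 2 * i))).coeff (n - 2 * j) =
      if m + j = i then (i.choose j : ℚ) * (-1 / 4) ^ j * 2 ^ (n - 2 * i) else 0 := by
    intro m hm
    rw [Finset.mem_range] at hm
    have e : ((X ^ 2 : ℚ[X]) ^ m * C (-1 / 4) ^ (i - m) * (i.choose m : ℚ[X]) *
      (C 2 ^ (n - 2 * i) * X ^ (n - 2 * i))) =
      C ((i.choose m : ℚ) * (-1 / 4) ^ (i - m) * 2 ^ (n - 2 * i)) * X ^ (2 * m + (n - 2 * i)) := by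
      rw [C_mul, C_mul, C_pow, C_pow, pow_add, pow_mul, ← C_eq_natCast]
      ring
    rw [e, coeff_C_mul, coeff_X_pow]
    by_cases h : m + j = i
    · rw [if_pos h, if_pos (by omega), mul_one]
      have h1 : i - m = j := by omega
      rw [h1]
      have h2 : i.choose m = i.choose j := by
        rw [← Nat.choose_symm (show m ≤ i by omega), h1]
      rw [h2]
    · rw [if_neg h, if_neg (by omega), mul_zero]
  rw [Finset.sum_congr rfl key]
  by_cases hji : j ≤ i
  · rw [Finset.sum_eq_single (i - j)]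
    · rw [if_pos (by omega)]
    · intro m _ hm
      rw [if_neg (by omega)]
    · intro h
      exact absurd (Finset.mem_range.2 (by omega)) h
  · rw [Finset.sum_eq_zero, Nat.choose_eq_zero_of_lt (by omega)]
    · simp
    · intro m _
      rw [if_neg (by omega)]

lemma coeff_taylor {V : Type} [Fintype V] (G : SimpleGraph V) (k : ℕ) :
    (taylor (-1 / 2 : ℚ) (fpoly G)).coeff k = aa G k := by
  classical
  rw [taylor_coeff, Tay.hasse_fpoly, aa]
  have := Tay.sum_eq G k
  convert this.symm using 1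

/-- The Taylor coefficients in terms of the `γ`-vector. -/
theorem aa_of_gam {V : Type} [Fintype V] {n : ℕ} {G : SimpleGraph V} {c : ℕ → ℚ} (h : IsGam n G c)
    (j : ℕ) (hj : 2 * j ≤ n) :
    aa G (n - 2 * j) = (-1 / 4) ^ j * ∑ i ∈ Finset.range (n / 2 + 1), (i.choose j : ℚ) * 2 ^ (n - 2 * i) * c i := by
  rw [← coeff_taylor, h.2, map_sum, finset_sum_coeff, Finset.mul_sum]
  refine Finset.sum_congr rfl fun i hi => ?_
  rw [Finset.mem_range] at hi
  rw [taylor_mul, taylor_C, coeff_C_mul, taylor_bas n i j (by omega) hj]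
  ring

lemma pow_expand (n j : ℕ) (hj : 2 * j ≤ n) : ((1 + 2 * X) ^ (n - 2 * j) : ℚ[X]) =
    ∑ l ∈ Finset.range (n / 2 + 1), C ((j.choose l : ℚ) * (-4) ^ l) *
      (X ^ l * (1 + X) ^ l * (1 + 2 * X) ^ (n - 2 * l)) := by
  have h1 : (1 : ℚ[X]) = C (-4) * (X * (1 + X)) + (1 + 2 * X) ^ 2 := by
    have : (C (-4 : ℚ) : ℚ[X]) = -4 := by rw [C_neg]; rfl
    rw [this]
    ring
  have h2 : ((1 + 2 * X) ^ (n - 2 * j) : ℚ[X]) =
      (1 + 2 * X) ^ (n - 2 * j) * (C (-4) * (X * (1 + X)) + (1 + 2 * X) ^ 2) ^ j := by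
    rw [← h1, one_pow, mul_one]
  rw [h2, add_pow (C (-4) * (X * (1 + X)) : ℚ[X]) ((1 + 2 * X) ^ 2) j, Finset.mul_sum]
  have h3 : ∀ l ∈ Finset.range (n / 2 + 1), l ∉ Finset.range (j + 1) → C ((j.choose l : ℚ) * (-4) ^ l) *
      (X ^ l * (1 + X) ^ l * (1 + 2 * X : ℚ[X]) ^ (n - 2 * l)) = 0 := by
    intro l _ hl
    rw [Finset.mem_range, not_lt] at hl
    rw [Nat.choose_eq_zero_of_lt (by omega)]
    simp
  rw [← Finset.sum_subset (Finset.range_subset_range.2 (show j + 1 ≤ n / 2 + 1 by omega)) h3]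
  refine Finset.sum_congr rfl fun l hl => ?_
  rw [Finset.mem_range] at hl
  have e : n - 2 * l = (n - 2 * j) + 2 * (j - l) := by omega
  rw [e, pow_add, pow_mul, C_mul, C_pow, ← C_eq_natCast, mul_pow, mul_pow]
  ring

/-- Existence of the `γ`-vector. -/
theorem exists_gam {V : Type} [Fintype V] {n : ℕ} (G : SimpleGraph V)
    (hdim : ∀ T : Finset V, G.IsClique (T : Set V) → T.card ≤ n) (hodd : ∀ k ≤ n, (n - k) % 2 = 1 → aa G k = 0) :
    ∃ c : ℕ → ℚ, IsGam n G c := by
  classical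
  have hdeg : (fpoly G).natDegree ≤ n := by
    unfold fpoly
    refine natDegree_sum_le_of_forall_le _ _ fun T _ => ?_
    split_ifs with h
    · exact (natDegree_X_pow_le _).trans (hdim T h)
    · simp
  have hexp : fpoly G = ∑ k ∈ Finset.range (n + 1), C (aa G k * (1 / 2) ^ k) * (1 + 2 * X) ^ k := by
    have h1 := sum_taylor_eq (fpoly G) (-1 / 2 : ℚ)
    rw [sum_over_range' _ _ (n + 1) (by rw [natDegree_taylor]; omega)] at h1
    · rw [← h1]
      refine Finset.sum_congr rfl fun k _ => ?_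
      rw [coeff_taylor, C_mul, C_pow, mul_assoc, ← mul_pow]
      congr 2
      have : (2 : ℚ[X]) = C 2 := rfl
      rw [this, mul_add, ← mul_assoc, ← C_mul, mul_one, sub_eq_add_neg, ← C_neg]
      norm_num
      ring
    · intro i
      simp
  have hpar : fpoly G = ∑ j ∈ Finset.range (n / 2 + 1),
      C (aa G (n - 2 * j) * (1 / 2) ^ (n - 2 * j)) * (1 + 2 * X) ^ (n - 2 * j) := by
    rw [hexp, ← Finset.sum_filter_add_sum_filter_not _ (fun k => (n - k) % 2 = 0)]
    have h0 : ∑ k ∈ (Finset.range (n + 1)).filter (fun k => ¬ (n - k) % 2 = 0),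
        C (aa G k * (1 / 2) ^ k) * (1 + 2 * X : ℚ[X]) ^ k = 0 := by
      refine Finset.sum_eq_zero fun k hk => ?_
      rw [Finset.mem_filter, Finset.mem_range] at hk
      rw [hodd k (by omega) (by omega)]
      simp
    rw [h0, add_zero]
    refine Finset.sum_bij' (fun k _ => (n - k) / 2) (fun j _ => n - 2 * j) ?_ ?_ ?_ ?_ ?_
    · intro k hk
      rw [Finset.mem_filter, Finset.mem_range] at hk
      rw [Finset.mem_range]
      omega
    · intro j hj
      rw [Finset.mem_range] at hj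
      rw [Finset.mem_filter, Finset.mem_range]
      omega
    · intro k hk
      rw [Finset.mem_filter, Finset.mem_range] at hk
      show n - 2 * ((n - k) / 2) = k
      omega
    · intro j hj
      rw [Finset.mem_range] at hj
      show (n - (n - 2 * j)) / 2 = j
      omega
    · intro k hk
      rw [Finset.mem_filter, Finset.mem_range] at hk
      have : n - 2 * ((n - k) / 2) = k := by omega
      rw [this]
  refine ⟨fun l => if 2 * l ≤ n then ∑ j ∈ Finset.range (n / 2 + 1),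
    aa G (n - 2 * j) * (1 / 2) ^ (n - 2 * j) * ((j.choose l : ℚ) * (-4) ^ l) else 0, ?_, ?_⟩
  · intro i hi
    dsimp only
    rw [if_neg (by omega)]
  · rw [hpar]
    have h1 : ∀ j ∈ Finset.range (n / 2 + 1),
        C (aa G (n - 2 * j) * (1 / 2) ^ (n - 2 * j)) * (1 + 2 * X : ℚ[X]) ^ (n - 2 * j) =
        ∑ l ∈ Finset.range (n / 2 + 1), C (aa G (n - 2 * j) * (1 / 2) ^ (n - 2 * j) * ((j.choose l : ℚ) * (-4) ^ l)) *
          (X ^ l * (1 + X) ^ l * (1 + 2 * X) ^ (n - 2 * l)) := by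
      intro j hj
      rw [Finset.mem_range] at hj
      rw [pow_expand n j (by omega), Finset.mul_sum]
      refine Finset.sum_congr rfl fun l _ => ?_
      rw [← mul_assoc, ← C_mul]
    rw [Finset.sum_congr rfl h1, Finset.sum_comm]
    refine Finset.sum_congr rfl fun l hl => ?_
    rw [Finset.mem_range] at hl
    beta_reduce
    rw [if_pos (show 2 * l ≤ n by omega), map_sum, Finset.sum_mul]

/-- Uniqueness of the `γ`-vector. -/
theorem gam_unique {V : Type} [Fintype V] {n : ℕ} {G : SimpleGraph V} {c c' : ℕ → ℚ} (h : IsGam n G c)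
    (h' : IsGam n G c') : c = c' := by
  classical
  by_contra hne
  have hex : ∃ i, c i - c' i ≠ 0 := by
    by_contra hcon
    push Not at hcon
    exact hne (funext fun i => sub_eq_zero.1 (hcon i))
  obtain ⟨i0, h0, hmin⟩ : ∃ i0, c i0 - c' i0 ≠ 0 ∧ ∀ i < i0, c i - c' i = 0 :=
    ⟨Nat.find hex, Nat.find_spec hex, fun i hi => by
      have := Nat.find_min hex hi
      push Not at this
      exact this⟩
  have hi0 : 2 * i0 ≤ n := by
    by_contra hcon
    rw [h.1 i0 (by omega), h'.1 i0 (by omega)] at h0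
    exact h0 (sub_zero 0)
  have h1 : ∑ i ∈ Finset.range (n / 2 + 1), C (c i - c' i) * (X ^ i * (1 + X) ^ i * (1 + 2 * X : ℚ[X]) ^ (n - 2 * i)) = 0 := by
    have h2 := h.2.symm.trans h'.2
    rw [← sub_eq_zero, ← Finset.sum_sub_distrib] at h2
    rw [← h2]
    refine Finset.sum_congr rfl fun i _ => ?_
    rw [C_sub, sub_mul]
  have h3 : X ^ i0 * ∑ i ∈ Finset.range (n / 2 + 1), C (c i - c' i) * (X ^ (i - i0) * (1 + X) ^ i * (1 + 2 * X : ℚ[X]) ^ (n - 2 * i)) = 0 := by
    rw [← h1, Finset.mul_sum]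
    refine Finset.sum_congr rfl fun i _ => ?_
    rcases Nat.lt_or_ge i i0 with hi | hi
    · rw [hmin i hi]
      simp
    · obtain ⟨d, rfl⟩ := Nat.exists_eq_add_of_le hi
      rw [Nat.add_sub_cancel_left, pow_add X i0 d]
      ring
  have h4 := (mul_eq_zero.1 h3).resolve_left (pow_ne_zero _ X_ne_zero)
  have h5 := congrArg (eval 0) h4
  rw [eval_finset_sum, eval_zero, Finset.sum_eq_single i0] at h5
  · simp only [Nat.sub_self, pow_zero, one_mul, eval_mul, eval_C, eval_pow, eval_add, eval_one, eval_X, add_zero,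
      one_pow, eval_ofNat, mul_zero, mul_one] at h5
    exact h0 h5
  · intro i hi hne'
    rcases Nat.lt_or_ge i i0 with hlt | hge
    · rw [hmin i hlt]
      simp
    · rw [eval_mul, eval_mul, eval_mul, eval_pow, eval_X, zero_pow (by omega)]
      ring
  · intro hcon
    exact absurd (Finset.mem_range.2 (by omega)) hcon

/-- `c 0 = 1`. -/
theorem gam_zero {V : Type} [Fintype V] {n : ℕ} {G : SimpleGraph V} {c : ℕ → ℚ} (h : IsGam n G c) : c 0 = 1 := by
  classical
  have h1 := congrArg (eval 0) h.2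
  have h2 : eval 0 (fpoly G) = 1 := by
    unfold fpoly
    rw [eval_finset_sum, Finset.sum_eq_single ∅]
    · rw [if_pos (by simp)]
      simp
    · intro T _ hT
      split_ifs with h3
      · rw [eval_pow, eval_X, zero_pow (by rwa [Ne, Finset.card_eq_zero])]
      · simp
    · intro hcon
      exact absurd (Finset.mem_univ _) hcon
  rw [h2, eval_finset_sum, Finset.sum_eq_single 0] at h1
  · rw [h1]
    simp
  · intro i _ hi
    rw [eval_mul, eval_mul, eval_mul, eval_pow, eval_X, zero_pow hi]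
    ring
  · intro hcon
    exact absurd (Finset.mem_range.2 (by omega)) hcon

end Pool.Agent.V5helper88.GA
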