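import Pool.Agent.V5helper88.GA.Gam
import Pool.Agent.N13.PL.All
import Pool.Agent.N13.EU.Last
import Pool.Agent.Y132.SI.Free

/-!
# The degree of the `γ`-polynomial and the `ℓ²`-homology of the special subgroups
-/

set_option autoImplicit false
set_option linter.unusedSectionVars false

namespace Pool.Agent.V5helper88.GA

open Module Pool.Agent.W907.SG Pool.Agent.W907.SM Pool.Agent.TH652.Above Pool.Agent.Y132.SI
open Pool.Agent.N13.EU Pool.Agent.R703.CW

section

variable {V : Type} [Fintype V] [LinearOrder V] {G : SimpleGraph V} {n : ℕ}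

theorem chiL_odd (hS : HSph n G) {T : Finset V} (hT : G.IsClique (T : Set V))
    (h : (n - T.card) % 2 = 1) : chiL G T = 0 := by
  classical
  rw [t_BR V G T hT]
  exact chi_odd (hsph_link hS T hT) h

theorem aa_odd (hS : HSph n G) (k : ℕ) (h : (n - k) % 2 = 1) : aa G k = 0 := by
  classical
  rw [aa]
  refine Finset.sum_eq_zero fun T _ => ?_
  split_ifs with h1
  · exact chiL_odd hS h1.1 (by rw [h1.2]; exact h)
  · rfl

/-- The `γ`-vector of a flag homology sphere. -/
theorem existsUnique_gam (hS : HSph n G) : ∃! c : ℕ → ℚ, IsGam n G c := by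
  obtain ⟨c, hc⟩ := exists_gam G (fun T hT => card_le_of_hsph hS T hT) fun k _ h => aa_odd hS k h
  exact ⟨c, hc, fun c' hc' => gam_unique hc' hc⟩

theorem abs_chi (hS : HSph n G) (hH : Hered n G) {T : Finset V} (hT : G.IsClique (T : Set V)) {j : ℕ}
    (hj : T.card + 2 * j = n) : |chiL G T| = (-1) ^ j * chiL G T := by
  have h1 := chi_sgn t_BR hS hT (abv_of_hered hS hH T hT) (m := j) (by omega)
  rw [← abs_of_nonneg h1, abs_mul, abs_pow, abs_neg, abs_one, one_pow, one_mul]

open Classical in
/-- The sums of the absolute values of the Euler characteristics of the links. -/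
theorem sum_abs (hS : HSph n G) (hH : Hered n G) {c : ℕ → ℚ} (hc : IsGam n G c) (j : ℕ) (hj : 2 * j ≤ n) :
    ∑ T : Finset V, (if G.IsClique (T : Set V) ∧ T.card + 2 * j = n then |chiL G T| else 0) =
      (1 / 4) ^ j * ∑ i ∈ Finset.range (n / 2 + 1), (i.choose j : ℚ) * 2 ^ (n - 2 * i) * c i := by
  have h1 := aa_of_gam hc j hj
  have h2 : ∑ T : Finset V, (if G.IsClique (T : Set V) ∧ T.card + 2 * j = n then |chiL G T| else 0) =
      (-1) ^ j * aa G (n - 2 * j) := by
    rw [aa, Finset.mul_sum]
    refine Finset.sum_congr rfl fun T _ => ?_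
    by_cases h : G.IsClique (T : Set V) ∧ T.card + 2 * j = n
    · rw [if_pos h, if_pos ⟨h.1, by omega⟩, abs_chi hS hH h.1 h.2]
    · rw [if_neg h, if_neg fun h3 => h ⟨h3.1, by omega⟩, mul_zero]
  rw [h2, h1, ← mul_assoc, ← mul_pow]
  norm_num

/-- The top degree. -/
theorem top (hS : HSph n G) (hH : Hered n G) {c : ℕ → ℚ} (hc : IsGam n G c) :
    ∃ g : ℕ, 2 * g ≤ n ∧ 0 < c g ∧ (∀ i, g < i → c i = 0) ∧
      (∀ (A : Finset V) (i : ℕ), g < i → L2Van (G.induce (A : Set V)) i) ∧
      ∃ T : Finset V, G.IsClique (T : Set V) ∧ T.card + 2 * g = n ∧ chiL G T ≠ 0 := by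
  classical
  have hc0 : c 0 ≠ 0 := by
    rw [gam_zero hc]
    exact one_ne_zero
  obtain ⟨g, hg, hcg, hmax⟩ : ∃ g, 2 * g ≤ n ∧ c g ≠ 0 ∧ ∀ i, g < i → c i = 0 := by
    refine ⟨Nat.findGreatest (fun i => c i ≠ 0) (n / 2), ?_, ?_, ?_⟩
    · have := Nat.findGreatest_le (P := fun i => c i ≠ 0) (n / 2)
      omega
    · exact Nat.findGreatest_spec (P := fun i => c i ≠ 0) (Nat.zero_le _) hc0
    · intro i hi
      by_cases h : i ≤ n / 2
      · by_contra hcon
        exact Nat.findGreatest_is_greatest hi h hcon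
      · exact hc.1 i (by omega)
  have hsum := sum_abs hS hH hc g hg
  rw [Finset.sum_eq_single_of_mem g (Finset.mem_range.2 (show g < n / 2 + 1 by omega))] at hsum
  · have hnn : 0 ≤ ∑ T : Finset V, (if G.IsClique (T : Set V) ∧ T.card + 2 * g = n then |chiL G T| else 0) := by
      refine Finset.sum_nonneg fun T _ => ?_
      split_ifs
      · exact abs_nonneg _
      · exact le_rfl
    have hne : ∑ T : Finset V, (if G.IsClique (T : Set V) ∧ T.card + 2 * g = n then |chiL G T| else 0) ≠ 0 := by
      rw [hsum, Nat.choose_self, Nat.cast_one, one_mul]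
      exact mul_ne_zero (pow_ne_zero _ (by norm_num)) (mul_ne_zero (pow_ne_zero _ (by norm_num)) hcg)
    have hpos : 0 < c g := by
      have h3 : 0 < ((1 / 4 : ℚ) ^ g * (((g.choose g : ℕ) : ℚ) * 2 ^ (n - 2 * g) * c g)) :=
        hsum ▸ lt_of_le_of_ne hnn hne.symm
      rw [Nat.choose_self, Nat.cast_one, one_mul, ← mul_assoc] at h3
      exact (pos_iff_pos_of_mul_pos h3).1 (by positivity)
    obtain ⟨T, -, hT⟩ := Finset.exists_ne_zero_of_sum_ne_zero hne
    have hT1 : G.IsClique (T : Set V) ∧ T.card + 2 * g = n := by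
      by_contra hcon
      exact hT (if_neg hcon)
    rw [if_pos hT1] at hT
    refine ⟨g, hg, hpos, hmax, ?_, T, hT1.1, hT1.2, fun h => hT (by rw [h, abs_zero])⟩
    refine (gam_deg hS hH hg c hcg ?_).1
    rw [hc.2]
    refine (Finset.sum_subset (Finset.range_subset_range.2 (by omega)) fun i _ hi => ?_).symm
    rw [Finset.mem_range, not_lt] at hi
    rw [hmax i (by omega)]
    simp
  · intro i _ hi
    rcases Nat.lt_or_ge i g with h | h
    · rw [Nat.choose_eq_zero_of_lt h]
      simp
    · rw [hmax i (by omega), mul_zero]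

/-- The links which realize the top degree. -/
theorem top_link (hS : HSph n G) (hH : Hered n G) {g : ℕ} {T : Finset V} (hT : G.IsClique (T : Set V))
    (hg : T.card + 2 * g = n) (hχ : chiL G T ≠ 0) (A : Finset V) (hA : (A : Set V) = lk G T) :
    (¬ L2Van (G.induce (A : Set V)) g) ∧ (∀ i, i ≠ g → L2Van (G.induce (A : Set V)) i) ∧
      ∀ ε : ℝ, 0 < ε → ∃ E : Finset (W (G.induce (A : Set V))), (1 : W (G.induce (A : Set V))) ∉ E ∧
        ∀ H : Subgroup (W (G.induce (A : Set V))), H.FiniteIndex →
          (∀ g ∈ E, ∀ x : W (G.induce (A : Set V)), x * g * x⁻¹ ∉ H) → ∀ i : ℕ,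
            |(finrank ℝ (HInv (G.induce (A : Set V)) H i) : ℝ) -
              (if i = g then |(chiL G T : ℝ)| else 0) * H.index| ≤ ε * H.index := by
  classical
  have h1 : ∀ i, i ≠ g → L2Van (G.induce (A : Set V)) i := fun i hi =>
    (lv_fin (lk G T) i).1 (sing_link hS hT (abv_of_hered hS hH T hT) (by omega)) A hA
  have h2 : chiL G T = chiW (G.induce (A : Set V)) := by
    have key : ∀ (B : Set V) [Fintype ↥B], B = lk G T → chiL G T = chiW (G.induce B) := by
      rintro B _ rfl
      exact t_BR V G T hT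
    exact key _ hA
  refine ⟨fun h => hχ ?_, h1, fun ε hε => ?_⟩
  · refine chi_of t_BR hT fun i => (lv_fin (lk G T) i).2 fun B hB => ?_
    have : B = A := Finset.coe_injective (hB.trans hA.symm)
    subst this
    by_cases hi : i = g
    · rw [hi]
      exact h
    · exact h1 i hi
  · obtain ⟨E, hE1, hE2⟩ := growth_free (G.induce (A : Set V)) (2 * g) (fun i hi => h1 i (by omega)) ε hε
    refine ⟨E, hE1, fun H hH' hE i => ?_⟩
    have h3 := hE2 H hH' hE i
    have h4 : (if 2 * i = 2 * g then (-1 : ℝ) ^ i * (chiW (G.induce (A : Set V)) : ℝ) else 0) =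
        if i = g then |(chiL G T : ℝ)| else 0 := by
      by_cases hi : i = g
      · rw [if_pos hi, if_pos (by omega), ← h2, hi]
        have h5 := abs_chi hS hH hT hg
        have h6 := congrArg (fun q : ℚ => (q : ℝ)) h5
        push_cast at h6
        exact h6.symm
      · rw [if_neg hi, if_neg (by omega)]
    rw [h4] at h3
    exact h3

/-- The vanishing for all full subcomplexes goes up by one degree. -/
theorem lv_up {V : Type} [Finite V] (G : SimpleGraph V) (i : ℕ) (h : ∀ A : Set V, LV (G.induce A) i)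
    (A : Set V) : LV (G.induce A) (i + 1) := by
  classical
  have key : ∀ k : ℕ, ∀ A : Set V, A.ncard = k → LV (G.induce A) (i + 1) := by
    intro k
    induction k with
    | zero =>
      intro A hk
      rw [Set.ncard_eq_zero] at hk
      subst hk
      exact lv_empty G (i + 1) (by omega)
    | succ k ih =>
      intro A hk
      have hne : A.Nonempty := by
        rw [← Set.ncard_pos]
        omega
      obtain ⟨v, hv⟩ := hne
      refine lv_add G A v hv (i + 1) (ih (A \ {v}) ?_) fun j _ => ?_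
      · rw [Set.ncard_sdiff_singleton_of_mem hv, hk]
        omega
      · have : j = i := by omega
        subst this
        exact h _
  exact key _ A rfl

/-- The degrees which occur form an initial segment. -/
theorem exists_down (G : SimpleGraph V) {g i : ℕ} (hi : i ≤ g)
    (h : ∃ A : Finset V, ¬ L2Van (G.induce (A : Set V)) g) : ∃ A : Finset V, ¬ L2Van (G.induce (A : Set V)) i := by
  classical
  by_contra hcon
  push Not at hcon
  have h0 : ∀ A : Set V, LV (G.induce A) i := by
    intro A
    rw [lv_fin]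
    rintro B -
    exact hcon B
  have h1 : ∀ d : ℕ, ∀ A : Set V, LV (G.induce A) (i + d) := by
    intro d
    induction d with
    | zero => exact h0
    | succ d ih => exact fun A => lv_up G (i + d) ih A
  obtain ⟨A, hA⟩ := h
  refine hA ?_
  have h2 := h1 (g - i) (A : Set V)
  rw [show i + (g - i) = g by omega] at h2
  exact h2 _ _

/-- The degrees of the `ℓ²`-homology of the special subgroups. -/
theorem degrees (hS : HSph n G) (hH : Hered n G) {c : ℕ → ℚ} (hc : IsGam n G c) (i : ℕ) :
    (∃ A : Finset V, ¬ L2Van (G.induce (A : Set V)) i) ↔ ∃ k, i ≤ k ∧ c k ≠ 0 := by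
  classical
  obtain ⟨g, hg, hpos, hmax, hvan, T, hT, hTg, hχ⟩ := top hS hH hc
  have hA := (Set.toFinite (lk G T)).coe_toFinset
  constructor
  · rintro ⟨A, h⟩
    refine ⟨g, ?_, hpos.ne'⟩
    by_contra hcon
    exact h (hvan A i (by omega))
  · rintro ⟨k, hk, hck⟩
    have hkg : k ≤ g := by
      by_contra hcon
      exact hck (hmax k (by omega))
    exact exists_down G (hk.trans hkg) ⟨_, (top_link hS hH hT hTg hχ _ hA).1⟩

/-- The vanishing of the coefficients of the `γ`-polynomial. -/
theorem van_iff (hS : HSph n G) (hH : Hered n G) {c : ℕ → ℚ} (hc : IsGam n G c) (j : ℕ) :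
    (∀ i, j ≤ i → c i = 0) ↔ ∀ (A : Finset V) (i : ℕ), j ≤ i → L2Van (G.induce (A : Set V)) i := by
  classical
  obtain ⟨g, hg, hpos, hmax, hvan, T, hT, hTg, hχ⟩ := top hS hH hc
  have hA := (Set.toFinite (lk G T)).coe_toFinset
  have h1 := (top_link hS hH hT hTg hχ _ hA).1
  constructor
  · intro h A i hi
    refine hvan A i ?_
    by_contra hcon
    exact hpos.ne' (h g (by omega))
  · intro h i hi
    refine hmax i ?_
    by_contra hcon
    exact h1 (h _ g (by omega))

end

/-- The equivalence with the Singer conjecture. -/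
theorem singer_iff_gam (N : ℕ) : Singer N ↔
    ∀ n ≤ N, ∀ (V : Type) [Fintype V] [LinearOrder V] (G : SimpleGraph V) (c : ℕ → ℚ), HSph n G →
      IsGam n G c → ∀ i : ℕ, (∃ A : Finset V, ¬ L2Van (G.induce (A : Set V)) i) ↔ ∃ k, i ≤ k ∧ c k ≠ 0 := by
  constructor
  · intro h n hn V _ _ G c hS hc i
    exact degrees hS (hered_of_singer h hn hS) hc i
  · intro h
    refine (aboveAll_iff N).1 fun n hn V _ _ G hS A i hi => ?_
    obtain ⟨c, hc, -⟩ := existsUnique_gam hS
    by_contra hcon
    obtain ⟨k, hk, hck⟩ := (h n hn V G c hS hc i).1 ⟨A, hcon⟩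
    exact hck (hc.1 k (by omega))

end Pool.Agent.V5helper88.GA
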